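import Pool.Agent.L0h99.MN.Stm

/-!
# Project MN, module TRE: few adjacent pairs in a set of small radius
-/

set_option autoImplicit false
set_option linter.all false

open Finset
open scoped Classical

namespace Pool.Agent.L0h34.MN

open Pool.Agent.L0h99.MN

theorem TRE : St_TRE := by
  intro V _ _ G P hU hPn hP
  obtain ⟨c, hc⟩ := hPn
  -- shortest paths from `c`
  have h0 : ∀ x, x ∈ P → ∃ p : G.Walk c x, p.IsPath ∧ (∀ z ∈ p.support, z ∈ P) ∧ p.length ≤ 5 ∧
      ∀ q : G.Walk c x, q.IsPath → (∀ z ∈ q.support, z ∈ P) → p.length ≤ q.length := by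
    intro x hx
    have hne : ∃ n, ∃ p : G.Walk c x, p.IsPath ∧ (∀ z ∈ p.support, z ∈ P) ∧ p.length = n := by
      obtain ⟨p, hp, -, hps⟩ := hP c hc x hx
      exact ⟨p.length, p, hp, hps, rfl⟩
    obtain ⟨p, hp, hps, hpl⟩ := Nat.find_spec hne
    have hmin : ∀ q : G.Walk c x, q.IsPath → (∀ z ∈ q.support, z ∈ P) → p.length ≤ q.length := by
      intro q hq hqs
      rw [hpl]
      exact Nat.find_min' hne ⟨q, hq, hqs, rfl⟩
    refine ⟨p, hp, hps, ?_, hmin⟩
    obtain ⟨q, hq, hql, hqs⟩ := hP c hc x hx
    exact (hmin q hq hqs).trans hql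
  choose pp hpath hsup hlen hmin using h0
  -- the last vertex but one
  obtain ⟨par, hpar⟩ : ∃ par : V → V, ∀ y (hy : y ∈ P), par y = (pp y hy).penultimate := by
    refine ⟨fun y => if h : y ∈ P then (pp y h).penultimate else y, fun y hy => ?_⟩
    simp only [dif_pos hy]
  have key : ∀ x (hx : x ∈ P) y (hy : y ∈ P), G.Adj x y → (pp x hx).length ≤ (pp y hy).length →
      y ≠ c ∧ x = par y := by
    intro x hx y hy hxy hle
    have hyn : y ∉ (pp x hx).support := by
      intro hy'
      have h1 := hmin y hy ((pp x hx).takeUntil y hy') ((hpath x hx).takeUntil hy')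
        (fun z hz => hsup x hx z ((pp x hx).support_takeUntil_subset_support hy' hz))
      have h2 := SimpleGraph.Walk.length_takeUntil_lt_length hy' hxy.ne'
      omega
    have h1 : ((pp x hx).concat hxy).IsPath := (hpath x hx).concat hyn hxy
    have h2 : (pp x hx).concat hxy = pp y hy := by
      apply hU _ _ _ _ h1 (hpath y hy)
      rw [SimpleGraph.Walk.length_concat]
      have := hlen x hx
      have := hlen y hy
      omega
    refine ⟨?_, ?_⟩
    · rintro rfl
      exact hyn (SimpleGraph.Walk.start_mem_support _)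
    · rw [hpar y hy, ← h2, SimpleGraph.Walk.penultimate_concat]
  -- counting
  have hee : ee G P P = (((P ×ˢ P).filter (fun e => G.Adj e.1 e.2)).card : ℤ) := by
    rw [card_filter, sum_product]
    unfold ee
    push_cast
    apply sum_congr rfl
    intro x _
    rw [← Nat.cast_one, ← Nat.cast_zero]
    have : (N G x ∩ P) = P.filter (fun y => G.Adj x y) := by
      ext y
      rw [mem_inter, mem_N, mem_filter]
      tauto
    rw [this, card_filter]
    push_cast
    rfl
  have hsub : (P ×ˢ P).filter (fun e => G.Adj e.1 e.2) ⊆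
      (P.erase c).image (fun y => (par y, y)) ∪ (P.erase c).image (fun x => (x, par x)) := by
    intro e he
    rw [mem_filter, mem_product] at he
    obtain ⟨⟨hx, hy⟩, hadj⟩ := he
    rw [mem_union, mem_image, mem_image]
    rcases le_total (pp e.1 hx).length (pp e.2 hy).length with h | h
    · obtain ⟨h1, h2⟩ := key e.1 hx e.2 hy hadj h
      left
      exact ⟨e.2, mem_erase.2 ⟨h1, hy⟩, by rw [← h2]⟩
    · obtain ⟨h1, h2⟩ := key e.2 hy e.1 hx hadj.symm h
      right
      exact ⟨e.1, mem_erase.2 ⟨h1, hx⟩, by rw [← h2]⟩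
  have h1 := card_le_card hsub
  have h2 := card_union_le ((P.erase c).image (fun y => (par y, y)))
    ((P.erase c).image (fun x => (x, par x)))
  have h3 : ((P.erase c).image (fun y => (par y, y))).card ≤ (P.erase c).card := card_image_le
  have h4 : ((P.erase c).image (fun x => (x, par x))).card ≤ (P.erase c).card := card_image_le
  have h5 : (P.erase c).card + 1 = P.card := card_erase_add_one hc
  rw [hee]
  have h6 : ((P ×ˢ P).filter (fun e => G.Adj e.1 e.2)).card + 2 ≤ 2 * P.card := by omega
  exact_mod_cast h6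

end Pool.Agent.L0h34.MN

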